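import Pool.Agent.Q306.FK.GC.Eq
import Pool.Agent.Q306.FK.Stab

set_option autoImplicit false
set_option maxRecDepth 100000
set_option maxHeartbeats 4000000
open Finset

namespace Pool.Agent.Q306.FK.GC
open Pool.Agent.H122R2.N6 Pool.Agent.H37R3.Pen Pool.Agent.H37R3.K5

theorem emb : embL 243703 LST = true := by decide +kernel

theorem mask : MaskG 243703 FK.GC := by decide +kernel

theorem three : ∀ e ∈ FK.GC, e.card = 3 := by decide +kernel

theorem base {n : ℕ} {H : Finset (Finset (Fin n))} (hH : ThreeGraph H) (hF : FK.K53Free H) :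
    4213261558800 * (8 * (n : ℤ) ^ 3 * (H.card : ℤ)) + 91062612720 * ∑ x : Fin 6 → Fin n, ((YB (tn H) x : ℕ) : ℤ) ≤
      4213261558800 * (n : ℤ) ^ 6 + 2136786071760 * (720 * (copies FK.GC H : ℤ)) := by
  have h := main (tn_sy H) (tn_noK5 hH hF)
    (R := fun k x => k + SLK * YB (tn H) x ≤ CST + PEN * XS (tn H) 243703 x)
    (fun k x s hs hk => by rw [XS_comp x hs, YB_comp x hs]; exact hk)
    (fun k x hk => by
      have hk' : (Nat.ble (Nat.add k SLK) CST || ((inB (code (tn H) x) && Nat.ble k CST) ||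
        (inL (code (tn H) x) LST && Nat.ble (Nat.add k SLK) (Nat.add CST PEN)))) = true := hk
      rw [Bool.or_eq_true, Bool.or_eq_true, Bool.and_eq_true, Bool.and_eq_true] at hk'
      have hY := YB_le (E := tn H) x
      have hYS : SLK * YB (tn H) x ≤ SLK := by
        calc _ ≤ SLK * 1 := Nat.mul_le_mul_left _ hY
          _ = SLK := mul_one _
      rcases hk' with h1 | ⟨h1, h2⟩ | ⟨h1, h2⟩
      · have h3 : k + SLK ≤ CST := Nat.le_of_ble_eq_true h1
        omega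
      · rw [YB_of_inB (tn_sy H) h1, mul_zero, add_zero]
        exact le_trans (Nat.le_of_ble_eq_true h2) (Nat.le_add_right _ _)
      · rw [XS_of_inL (tn_sy H) emb h1, mul_one]
        have h3 : k + SLK ≤ CST + PEN := Nat.le_of_ble_eq_true h2
        omega)
    (fun x => (CST : ℤ) + (PEN : ℤ) * ((XS (tn H) 243703 x : ℕ) : ℤ) - (SLK : ℤ) * ((YB (tn H) x : ℕ) : ℤ))
    (fun k x hk => by
      have : ((k + SLK * YB (tn H) x : ℕ) : ℤ) ≤ ((CST + PEN * XS (tn H) 243703 x : ℕ) : ℤ) := by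
        exact_mod_cast hk
      push_cast at this
      linarith)
  have hC : (CST : ℤ) = 268096052225040 := rfl
  have hP : (PEN : ℤ) = 2136786071760 := rfl
  have hS : (SLK : ℤ) = 91062612720 := rfl
  rw [sum_sub_distrib, sum_add_distrib, sum_const, ← mul_sum, ← mul_sum, card_univ,
    Fintype.card_fun, Fintype.card_fin, Fintype.card_fin, nsmul_eq_mul, hC, hP, hS] at h
  push_cast at h
  have h1 : ∑ x : Fin 6 → Fin n, ((XS (tn H) 243703 x : ℕ) : ℤ) ≤ ((720 * copies FK.GC H : ℕ) : ℤ) := by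
    exact_mod_cast sum_XS_le hH mask three
  have h2 : ((6 * H.card : ℕ) : ℤ) ≤ ∑ a, ∑ b, ∑ c, ((tn H a b c : ℕ) : ℤ) := by
    exact_mod_cast tn_card hH
  have h3 : (0 : ℤ) ≤ (n : ℤ) ^ 3 := by positivity
  have h4 := mul_le_mul_of_nonneg_left h2 h3
  push_cast at h1 h4
  linarith

theorem edges {n : ℕ} {H : Finset (Finset (Fin n))} (hH : ThreeGraph H) (hF : FK.K53Free H) :
    8 * n ^ 3 * H.card ≤ n ^ 6 + 366 * copies FK.GC H := by
  have h := base hH hF
  have h0 : (0 : ℤ) ≤ ∑ x : Fin 6 → Fin n, ((YB (tn H) x : ℕ) : ℤ) := by positivity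
  have h6 : (0 : ℤ) ≤ (copies FK.GC H : ℤ) := by positivity
  have h5 : (8 * (n : ℤ) ^ 3 * (H.card : ℤ)) ≤ (n : ℤ) ^ 6 + 366 * (copies FK.GC H : ℤ) := by
    linarith
  exact_mod_cast h5

theorem stability {n : ℕ} {H : Finset (Finset (Fin n))} (hH : ThreeGraph H) (hF : FK.K53Free H) :
    ∃ A : Finset (Fin n), n ^ 3 * (symmDiff H (twoClass A)).card + 93 * (8 * n ^ 3 * H.card) ≤
      93 * n ^ 6 + 34000 * copies FK.GC H := by
  have h := base hH hF
  obtain ⟨A, hA⟩ := stab hH hF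
  refine ⟨A, ?_⟩
  have hA' : ((n ^ 3 * (symmDiff H (twoClass A)).card : ℕ) : ℤ) ≤
      2 * ∑ x : Fin 6 → Fin n, ((YB (tn H) x : ℕ) : ℤ) := by exact_mod_cast hA
  have h0 : (0 : ℤ) ≤ ((n ^ 3 * (symmDiff H (twoClass A)).card : ℕ) : ℤ) := by positivity
  have h6 : (0 : ℤ) ≤ (copies FK.GC H : ℤ) := by positivity
  have h5 : ((n ^ 3 * (symmDiff H (twoClass A)).card : ℕ) : ℤ) + 93 * (8 * (n : ℤ) ^ 3 * (H.card : ℤ)) ≤
      93 * (n : ℤ) ^ 6 + 34000 * (copies FK.GC H : ℤ) := by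
    linarith
  exact_mod_cast h5

end Pool.Agent.Q306.FK.GC
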